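import Mathlib
import Pool.Agent.Helper3_PPZ.Stmts

/-!
# Squad PPE: definitions

This is the squad PPZ with an additional parameter `K` (`K ≥ 20`): the number of the poles of the
derivation plus the number of the exceptional places is only assumed to be smaller than `K / 20`
times the sum of the heights.
-/

set_option autoImplicit false

universe u

namespace Pool.Agent.PPE

open MvPolynomial PGH PPX PPZ

/-- A bad curve: as in `PPZ.BC`, but the number of poles of `D` plus the number of exceptional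
places is only smaller than `K / 20` times the sum of the heights of `x` and `z`. -/
structure BC (K : ℕ) {k : Type u} [Field k] {N₁ N₂ : ℕ} (a : Fin N₁ → k) (b : Fin N₂ → k) where
  E : Type u
  [field : Field E]
  [algebra : Algebra k E]
  [charZero : CharZero E]
  [ff : FF k E]
  D : Derivation ℤ E E
  cp : Place k E → ℕ
  sc : Finset (Place k E)
  bd : Finset (Place k E)
  x : E
  z : E
  ker : ∀ w : E, D w = 0 ↔ ∃ c : k, algebraMap k E c = w
  bp : Bp D cp sc
  dx : D x ≠ 0
  dz : D z ≠ 0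
  pat : Pat D a b x z bd
  hK : 20 ≤ K
  bad : 20 * ((∑ P ∈ sc, cp P) + bd.card) < K * (ht k x + ht k z)

attribute [instance] BC.field BC.algebra BC.charZero BC.ff

section

variable {K : ℕ} {k : Type u} [Field k] {N₁ N₂ : ℕ} {a : Fin N₁ → k} {b : Fin N₂ → k}

namespace BC

variable (C : BC K a b)

/-- `θ = dx / dz` -/
noncomputable def th : C.E := PPX.th C.D C.x C.z

/-- `Λ = (D θ / θ - 2 (∑ D x / (x - a i) - ∑ D z / (z - b j))) / D z` -/
noncomputable def la : C.E := PPX.la C.D (fun i => algebraMap k C.E (a i))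
  (fun j => algebraMap k C.E (b j)) C.x C.z

/-- the point `(x, z, θ, Λ)` -/
noncomputable def pt : Fin 4 → C.E := ![C.x, C.z, C.th, C.la]

/-- the value of a polynomial in `x, z, θ, Λ` -/
noncomputable def ev (Q : P4 k) : C.E := MvPolynomial.aeval C.pt Q

/-- the value of a polynomial in `x, z` -/
noncomputable def ev2 (F : MvPolynomial (Fin 2) k) : C.E := MvPolynomial.aeval ![C.x, C.z] F

/-- the sum of the heights of `x` and `z` -/
noncomputable def h : ℕ := ht k C.x + ht k C.z

/-- `P` is a good place over `(a i, b j)` -/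
def Nd (i : Fin N₁) (j : Fin N₂) (P : Place k C.E) : Prop := Node C.D a b C.x C.z i j P

/-- the set of the good places -/
def nodes : Set (Place k C.E) := {P | ∃ i j, C.Nd i j P}

/-- the number of good places -/
noncomputable def n : ℕ := C.nodes.ncard

/-- the good places over `(a i, b j)` at which `θ` takes a value in `Θ i j` -/
def fixed (Θ : Fin N₁ → Fin N₂ → Finset k) : Set (Place k C.E) :=
  {P | ∃ i j, C.Nd i j P ∧ ∃ τ ∈ Θ i j, P.Ge 1 (C.th - algebraMap k C.E τ)}

/-- `f = ∏ (x - a i)` -/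
noncomputable def f : C.E := ∏ i, (C.x - algebraMap k C.E (a i))

/-- `g = ∏ (z - b j)` -/
noncomputable def g : C.E := ∏ j, (C.z - algebraMap k C.E (b j))

/-- `φ = θ g ^ 2 / f ^ 2` -/
noncomputable def ph : C.E := C.th * C.g ^ 2 / C.f ^ 2

end BC

/-- A family of bad curves, with an ultrafilter, which is not contained in any plane curve. -/
structure Fam (K : ℕ) {k : Type u} [Field k] {N₁ N₂ : ℕ} (a : Fin N₁ → k) (b : Fin N₂ → k) where
  ι : Type u
  U : Ultrafilter ι
  C : ι → BC K a b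
  gen : ∀ F : MvPolynomial (Fin 2) k, F ≠ 0 → ∀ᶠ i in (U : Filter ι), (C i).ev2 F ≠ 0

/-- the ideal of the polynomials which vanish on almost all curves of the family -/
noncomputable def Fam.v (T : Fam K a b) : Ideal (P4 k) where
  carrier := {Q | ∀ᶠ i in (T.U : Filter T.ι), (T.C i).ev Q = 0}
  zero_mem' := Filter.Eventually.of_forall fun i => by unfold BC.ev; exact map_zero _
  add_mem' := by
    intro p q hp hq
    filter_upwards [hp, hq] with i h1 h2
    unfold BC.ev at *
    rw [map_add, h1, h2, add_zero]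
  smul_mem' := by
    intro c q hq
    filter_upwards [hq] with i h1
    unfold BC.ev at *
    rw [smul_eq_mul, map_mul, h1, mul_zero]

/-- the orders of `φ` are given by rational residues -/
def Orders (C : BC K a b) (s₁ s₂ : Finset k) (ρ₁ ρ₂ : k → ℚ) : Prop :=
  ∀ P : Place k C.E, (P.ord C.ph : ℚ) = ∑ c ∈ s₂, ρ₂ c * P.ord (C.z - algebraMap k C.E c) -
    ∑ c ∈ s₁, ρ₁ c * P.ord (C.x - algebraMap k C.E c)

/-- `s₁` and `s₂` are small, compared with the number of good places -/
def Small (q : ℕ) (C : BC K a b) (s₁ s₂ : Finset k) : Prop :=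
  q * s₁.card * ht k C.x ≤ C.n ∧ q * s₂.card * ht k C.z ≤ C.n

/-- `φ ^ l * ∏ (x - c) ^ ⌊l ρ₁ c⌋ * ∏ (z - c) ^ (- ⌊l ρ₂ c⌋)` -/
noncomputable def phs (C : BC K a b) (s₁ s₂ : Finset k) (ρ₁ ρ₂ : k → ℚ) (l : ℕ) : C.E :=
  C.ph ^ l * (∏ c ∈ s₁, (C.x - algebraMap k C.E c) ^ ⌊l * ρ₁ c⌋) *
    ∏ c ∈ s₂, (C.z - algebraMap k C.E c) ^ (- ⌊l * ρ₂ c⌋)

/-- `φ ^ d * ∏ (x - c) ^ m₁ c * ∏ (z - c) ^ (- m₂ c)` -/
noncomputable def Phi (C : BC K a b) (s₁ s₂ : Finset k) (d : ℕ) (m₁ m₂ : k → ℤ) : C.E :=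
  C.ph ^ d * (∏ c ∈ s₁, (C.x - algebraMap k C.E c) ^ m₁ c) *
    ∏ c ∈ s₂, (C.z - algebraMap k C.E c) ^ (- m₂ c)

/-- `θ` is a root of the polynomial `G` with coefficients in `k[x, z]` on the curve -/
def RootTh (C : BC K a b) (G : Polynomial (MvPolynomial (Fin 2) k)) : Prop :=
  G.eval₂ (aeval ![C.x, C.z] : MvPolynomial (Fin 2) k →ₐ[k] C.E).toRingHom C.th = 0

/-- the curves which are not contained in `F = 0` have bounded height -/
def ExcA (K : ℕ) (a : Fin N₁ → k) (b : Fin N₂ → k) (F : MvPolynomial (Fin 2) k) : Prop :=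
  ∀ {E : Type u} [Field E] [Algebra k E] [CharZero E] [FF k E] (D : Derivation ℤ E E)
    (cp : Place k E → ℕ) (sc bd : Finset (Place k E)),
    (∀ w, D w = 0 ↔ ∃ c : k, algebraMap k E c = w) → Bp D cp sc → ∀ (x z : E), D x ≠ 0 →
    D z ≠ 0 → Pat D a b x z bd → aeval ![x, z] F ≠ 0 →
    K * (ht k x + ht k z) ≤ 20 * ((∑ P ∈ sc, cp P) + bd.card)

end

end Pool.Agent.PPE
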