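import Mathlib
import Pool.Agent.Helper3_PPE.Defs

/-!
# Squad PPE: statements

The statements of the squad PPZ which involve the bad curves, with the parameter `K`.
-/

set_option autoImplicit false

universe u

namespace Pool.Agent.PPE

open MvPolynomial PGH PPX PPZ

/-- NOD: the number of good places, and the heights -/
def NodStmt (K : ℕ) : Prop :=
  ∀ {k : Type u} [Field k] [IsAlgClosed k] [CharZero k] {N₁ N₂ : ℕ} (a : Fin N₁ → k)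
    (b : Fin N₂ → k), Function.Injective a → Function.Injective b → ∀ C : BC K a b,
    C.nodes.Finite ∧ 0 < C.h ∧
    N₁ * ht k C.x ≤ C.n + K * C.h ∧ N₂ * ht k C.z ≤ C.n + K * C.h ∧
    (∀ N, 4 * K ≤ N → N ≤ N₁ → N ≤ N₂ → N * C.h ≤ 4 * C.n) ∧
    ht k C.th ≤ K * C.h ∧ ht k C.la ≤ K * C.h ∧
    (∀ i, {P ∈ C.nodes | P.ord (C.x - algebraMap k C.E (a i)) = 1}.ncard ≤ ht k C.x) ∧
    (∀ j, {P ∈ C.nodes | P.ord (C.z - algebraMap k C.E (b j)) = 1}.ncard ≤ ht k C.z) ∧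
    (∀ c : k, algebraMap k C.E c ≠ C.x ∧ algebraMap k C.E c ≠ C.z) ∧ C.th ≠ 0

/-- CTB: a polynomial which vanishes at many good places vanishes.  The assumption is
`(d₁ / N₁ + d₂ / N₂ + 1 / q) n < card S`. -/
def CtbStmt (K : ℕ) : Prop :=
  ∀ M₀ q : ℕ, 0 < q → ∃ N₀ : ℕ, ∀ {k : Type u} [Field k] [IsAlgClosed k] [CharZero k]
    {N₁ N₂ : ℕ} (a : Fin N₁ → k) (b : Fin N₂ → k), N₀ ≤ N₁ → N₀ ≤ N₂ → Function.Injective a →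
    Function.Injective b → ∀ (C : BC K a b) (d₁ d₂ M : ℕ), M ≤ M₀ → ∀ Q ∈ Qd k d₁ d₂ M,
    ∀ S : Set (Place k C.E), S ⊆ C.nodes → (∀ P ∈ S, P.Ge 1 (C.ev Q)) →
    (q * (d₁ * N₂ + d₂ * N₁) + N₁ * N₂) * C.n < q * (N₁ * N₂) * S.ncard → C.ev Q = 0

/-- DER: the derivative of a polynomial in `x, z, θ` -/
def DerStmt (K : ℕ) : Prop :=
  ∀ {k : Type u} [Field k] [IsAlgClosed k] [CharZero k] {N₁ N₂ : ℕ} (a : Fin N₁ → k)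
    (b : Fin N₂ → k) (C : BC K a b) (Q : P4 k), degreeOf 3 Q = 0 →
    C.ev (fx a * gz b) * C.D (C.ev Q) = C.D C.z * C.ev (op a b Q)

/-- FAM: existence of families -/
def FamStmt (K : ℕ) : Prop :=
  ∀ {k : Type u} [Field k] {N₁ N₂ : ℕ} (a : Fin N₁ → k) (b : Fin N₂ → k) (S : Set (BC K a b)),
    (∀ F : MvPolynomial (Fin 2) k, F ≠ 0 → ∃ C ∈ S, C.ev2 F ≠ 0) →
    ∃ T : Fam K a b, ∀ i, T.C i ∈ S

/-- PRI: the ideal of a family -/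
def PriStmt (K : ℕ) : Prop :=
  ∀ {k : Type u} [Field k] {N₁ N₂ : ℕ} (a : Fin N₁ → k) (b : Fin N₂ → k) (T : Fam K a b),
    T.v.IsPrime ∧ (∀ F : MvPolynomial (Fin 2) k, inc F ∈ T.v → F = 0) ∧
    ∀ Q : P4 k, Q ∉ T.v → ∀ᶠ i in (T.U : Filter T.ι), (T.C i).ev Q ≠ 0

/-- VAL: the values at a good place -/
def ValStmt (K : ℕ) : Prop :=
  ∀ {k : Type u} [Field k] [IsAlgClosed k] [CharZero k] {N₁ N₂ : ℕ} (a : Fin N₁ → k)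
    (b : Fin N₂ → k), Function.Injective a → Function.Injective b → ∀ (C : BC K a b) (i : Fin N₁)
    (j : Fin N₂) (P : Place k C.E), C.Nd i j P → ∃ τ : k, τ ≠ 0 ∧
      (∀ v, P.Ge 1 (C.pt v - algebraMap k C.E (pnt a b i j τ v))) ∧
      (∀ Q : P4 k, (ln a b i j Q).eval τ = 0 → P.Ge 1 (C.ev Q)) ∧
      (∀ (r : ℕ) (Q : P4 k), JetZero r (pnt a b i j τ) Q → P.Ge r (C.ev Q)) ∧
      P.Ge 1 (C.th * C.ph - algebraMap k C.E ((dpr b j / dpr a i) ^ 2))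

/-- VAR: the variety of a family of curves with many prescribed values -/
def VarStmt (K : ℕ) : Prop :=
  ∀ q M₀ : ℕ, 0 < q → ∃ N₀ : ℕ, ∀ {k : Type u} [Field k] [IsAlgClosed k] [CharZero k]
    {N₁ N₂ : ℕ} (a : Fin N₁ → k) (b : Fin N₂ → k), N₀ ≤ N₁ → N₀ ≤ N₂ → Function.Injective a →
    Function.Injective b → ∀ (Θ : Fin N₁ → Fin N₂ → Finset k) (T : Fam K a b),
    (∀ᶠ i in (T.U : Filter T.ι), (T.C i).n < q * ((T.C i).fixed Θ).ncard) →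
    IsVar a b Θ (9 * q) M₀ T.v

/-- XZE: few good places have a prescribed value of `θ` -/
def XzeStmt (K : ℕ) : Prop :=
  ∀ B q : ℕ, 0 < q → ∃ N₀ : ℕ, ∀ {k : Type u} [Field k] [IsAlgClosed k] [CharZero k]
    {N₁ N₂ : ℕ} (a : Fin N₁ → k) (b : Fin N₂ → k), N₀ ≤ N₁ → N₀ ≤ N₂ → Function.Injective a →
    Function.Injective b → ∀ Θ : Fin N₁ → Fin N₂ → Finset k, (∀ i j, (Θ i j).card ≤ B) →
    ∀ T : Fam K a b, ∀ᶠ i in (T.U : Filter T.ι), q * ((T.C i).fixed Θ).ncard ≤ (T.C i).n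

/-- RMN: an equation of small degree -/
def RmnStmt (K : ℕ) : Prop :=
  ∀ q : ℕ, 4 ≤ q → ∃ N₀ : ℕ, ∀ {k : Type u} [Field k] [IsAlgClosed k] [CharZero k]
    {N₁ N₂ : ℕ} (a : Fin N₁ → k) (b : Fin N₂ → k), N₀ ≤ N₁ → N₀ ≤ N₂ → Function.Injective a →
    Function.Injective b → ∀ T : Fam K a b, ∃ R ∈ T.v,
      R ∈ Qd k (N₁ / q) (N₂ / q) (2 * q ^ 2) ∧ pderiv 3 R ∉ T.v ∧
      ∀ᶠ i in (T.U : Filter T.ι),
        q * {P | ∃ l j, (T.C i).Nd l j P ∧ ln a b l j R ≠ 0}.ncard ≤ (T.C i).n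

/-- TSX: the functions `T` and `S` -/
def TsxStmt (K : ℕ) : Prop :=
  ∀ q : ℕ, 0 < q → ∃ N₀ : ℕ, ∀ {k : Type u} [Field k] [IsAlgClosed k] [CharZero k]
    {N₁ N₂ : ℕ} (a : Fin N₁ → k) (b : Fin N₂ → k), N₀ ≤ N₁ → N₀ ≤ N₂ → Function.Injective a →
    Function.Injective b → ∀ T : Fam K a b, ∃ (A B A' B' : Polynomial k) (s₁ s₂ : Finset k),
      B ≠ 0 ∧ B' ≠ 0 ∧ (∀ c, c ∈ s₁ ↔ B.IsRoot c) ∧ (∀ c, c ∈ s₂ ↔ B'.IsRoot c) ∧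
      ∀ᶠ i in (T.U : Filter T.ι),
        (T.C i).la = Polynomial.aeval (T.C i).z A' / Polynomial.aeval (T.C i).z B' -
          Polynomial.aeval (T.C i).x A / Polynomial.aeval (T.C i).x B * (T.C i).th ∧
        Small q (T.C i) s₁ s₂

/-- RTA: the orders of `φ` are given by residues -/
def RtaStmt (K : ℕ) : Prop :=
  ∀ q : ℕ, 0 < q → ∃ N₀ : ℕ, ∀ {k : Type u} [Field k] [IsAlgClosed k] [CharZero k]
    {N₁ N₂ : ℕ} (a : Fin N₁ → k) (b : Fin N₂ → k), N₀ ≤ N₁ → N₀ ≤ N₂ → Function.Injective a →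
    Function.Injective b → ∀ T : Fam K a b, ∃ (s₁ s₂ : Finset k) (r₁ r₂ : k → k),
      ∀ᶠ i in (T.U : Filter T.ι), Small q (T.C i) s₁ s₂ ∧
        ∀ P : Place k (T.C i).E, (P.ord (T.C i).ph : k) =
          ∑ c ∈ s₂, r₂ c * P.ord ((T.C i).z - algebraMap k (T.C i).E c) -
            ∑ c ∈ s₁, r₁ c * P.ord ((T.C i).x - algebraMap k (T.C i).E c)

/-- RTB: the residues are rational -/
def RtbStmt (K : ℕ) : Prop :=
  ∀ q : ℕ, 4 ≤ q → ∃ N₀ : ℕ, ∀ {k : Type u} [Field k] [IsAlgClosed k] [CharZero k]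
    {N₁ N₂ : ℕ} (a : Fin N₁ → k) (b : Fin N₂ → k), N₀ ≤ N₁ → N₀ ≤ N₂ → Function.Injective a →
    Function.Injective b → ∀ (T : Fam K a b) (s₁ s₂ : Finset k) (r₁ r₂ : k → k),
      (∀ᶠ i in (T.U : Filter T.ι), Small q (T.C i) s₁ s₂ ∧
        ∀ P : Place k (T.C i).E, (P.ord (T.C i).ph : k) =
          ∑ c ∈ s₂, r₂ c * P.ord ((T.C i).z - algebraMap k (T.C i).E c) -
            ∑ c ∈ s₁, r₁ c * P.ord ((T.C i).x - algebraMap k (T.C i).E c)) →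
      (∀ c ∈ s₁, ∃ ρ : ℚ, r₁ c = ρ) ∧ ∀ c ∈ s₂, ∃ ρ : ℚ, r₂ c = ρ

/-- PHI: `Φ` is constant on every curve -/
def PhiStmt (K : ℕ) : Prop :=
  ∀ {k : Type u} [Field k] [IsAlgClosed k] [CharZero k] {N₁ N₂ : ℕ} (a : Fin N₁ → k)
    (b : Fin N₂ → k), Function.Injective a → Function.Injective b → ∀ (s₁ s₂ : Finset k)
    (ρ₁ ρ₂ : k → ℚ), ∃ (d : ℕ) (m₁ m₂ : k → ℤ), 0 < d ∧ (∀ c ∈ s₁, (m₁ c : ℚ) = d * ρ₁ c) ∧
      (∀ c ∈ s₂, (m₂ c : ℚ) = d * ρ₂ c) ∧ ∀ C : BC K a b, Orders C s₁ s₂ ρ₁ ρ₂ →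
        ∃ c : k, c ≠ 0 ∧ Phi C s₁ s₂ d m₁ m₂ = algebraMap k C.E c

/-- REL: a relation between the `θ ^ l φ_l` -/
def RelStmt (K : ℕ) : Prop :=
  ∃ N₀ : ℕ, ∀ {k : Type u} [Field k] [IsAlgClosed k] [CharZero k]
    {N₁ N₂ : ℕ} (a : Fin N₁ → k) (b : Fin N₂ → k), N₀ ≤ N₁ → N₀ ≤ N₂ → Function.Injective a →
    Function.Injective b → ∀ (s₁ s₂ : Finset k) (ρ₁ ρ₂ : k → ℚ),
      ∃ q : Fin 17 → MvPolynomial (Fin 2) k, q ≠ 0 ∧ ∀ C : BC K a b, Orders C s₁ s₂ ρ₁ ρ₂ →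
        Small 16 C s₁ s₂ → ∑ l, C.ev2 (q l) * C.th ^ (l : ℕ) * phs C s₁ s₂ ρ₁ ρ₂ l = 0

/-- ALT: `θ` is algebraic over `k(x, z)` -/
def AltStmt (K : ℕ) : Prop :=
  ∀ {k : Type u} [Field k] [IsAlgClosed k] [CharZero k] {N₁ N₂ : ℕ} (a : Fin N₁ → k)
    (b : Fin N₂ → k), Function.Injective a → Function.Injective b → ∀ (s₁ s₂ : Finset k)
    (ρ₁ ρ₂ : k → ℚ) (q : Fin 17 → MvPolynomial (Fin 2) k), q ≠ 0 →
      ∃ G : Polynomial (MvPolynomial (Fin 2) k), G ≠ 0 ∧ G.natDegree ≤ 32 ∧ ∀ C : BC K a b,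
        ∑ l, C.ev2 (q l) * C.th ^ (l : ℕ) * phs C s₁ s₂ ρ₁ ρ₂ l = 0 → RootTh C G

/-- CON: the case where `Φ` is the same constant on all curves -/
def ConStmt (K : ℕ) : Prop :=
  ∃ N₀ : ℕ, ∀ {k : Type u} [Field k] [IsAlgClosed k] [CharZero k]
    {N₁ N₂ : ℕ} (a : Fin N₁ → k) (b : Fin N₂ → k), N₀ ≤ N₁ → N₀ ≤ N₂ → Function.Injective a →
    Function.Injective b → ∀ (s₁ s₂ : Finset k) (ρ₁ ρ₂ : k → ℚ) (d : ℕ) (m₁ m₂ : k → ℤ), 0 < d →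
      (∀ c ∈ s₁, (m₁ c : ℚ) = d * ρ₁ c) → (∀ c ∈ s₂, (m₂ c : ℚ) = d * ρ₂ c) →
      ∀ G : Polynomial (MvPolynomial (Fin 2) k), G ≠ 0 → G.natDegree ≤ 32 →
      ∀ (T : Fam K a b) (c : k), c ≠ 0 → (∀ᶠ i in (T.U : Filter T.ι),
        Small 16 (T.C i) s₁ s₂ ∧ RootTh (T.C i) G ∧
          Phi (T.C i) s₁ s₂ d m₁ m₂ = algebraMap k (T.C i).E c) → False

/-- PEN: the case of a pencil -/
def PenStmt (K : ℕ) : Prop :=
  ∀ {k : Type u} [Field k] [IsAlgClosed k] [CharZero k] {N₁ N₂ : ℕ} (a : Fin N₁ → k)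
    (b : Fin N₂ → k), 4 * K ≤ N₁ → 4 * K ≤ N₂ → Function.Injective a → Function.Injective b →
    ∀ G : Polynomial (MvPolynomial (Fin 2) k), G ≠ 0 → ∀ p q : P4 k, degreeOf 3 p = 0 →
    degreeOf 3 q = 0 → ∀ T : Fam K a b, (∀ᶠ i in (T.U : Filter T.ι), RootTh (T.C i) G ∧
      (T.C i).ev q ≠ 0 ∧ ∃ c : k, (T.C i).ev p = algebraMap k (T.C i).E c * (T.C i).ev q) →
    (∀ c : k, ∀ᶠ i in (T.U : Filter T.ι),
      (T.C i).ev p ≠ algebraMap k (T.C i).E c * (T.C i).ev q) → False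

/-- NOF: there are no families of bad curves -/
def NofStmt (K : ℕ) : Prop :=
  ∃ N₀ : ℕ, 20 ≤ N₀ ∧ ∀ {k : Type u} [Field k] [IsAlgClosed k] [CharZero k]
    {N₁ N₂ : ℕ} (a : Fin N₁ → k) (b : Fin N₂ → k), N₀ ≤ N₁ → N₀ ≤ N₂ → Function.Injective a →
    Function.Injective b → Fam K a b → False

/-- HXX: the height inequality outside a plane curve -/
def HxxStmt (K : ℕ) : Prop :=
  20 ≤ K → ∃ N₀ : ℕ, 20 ≤ N₀ ∧ ∀ {k : Type u} [Field k] [IsAlgClosed k] [CharZero k] {N₁ N₂ : ℕ}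
    (a : Fin N₁ → k) (b : Fin N₂ → k), N₀ ≤ N₁ → N₀ ≤ N₂ → Function.Injective a →
    Function.Injective b → ∃ F : MvPolynomial (Fin 2) k, F ≠ 0 ∧ ExcA K a b F

end Pool.Agent.PPE
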