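import Pool.Agent.Helper3_PPZ.Ass
import Pool.Agent.Helper6_PPE.Alt
import Pool.Agent.Helper33_PPE.ConK
import Pool.Agent.Helper6_PPE.Ctb
import Pool.Agent.Helper65_PPE.Der
import Pool.Agent.Helper6_PPE.Fam
import Pool.Agent.Helper32_PPE.Hxx
import Pool.Agent.Helper83_PPE.Nod
import Pool.Agent.Helper6_PPE.Nof
import Pool.Agent.Helper90_PPE.Pen
import Pool.Agent.Helper90_PPE.Phi
import Pool.Agent.Helper20_PPE.Pri
import Pool.Agent.Helper58_PPE.Rel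
import Pool.Agent.Helper6_PPE.Rmn
import Pool.Agent.Helper32_PPE.Rta
import Pool.Agent.Helper6_PPE.Rtb
import Pool.Agent.Helper6_PPE.Tsx
import Pool.Agent.Helper6_PPE.Val
import Pool.Agent.Helper6_PPE.Var
import Pool.Agent.Helper6_PPE.Xze

/-!
# Squad PPE: assembly
-/

universe u

namespace Pool.Agent.PPE.H3

theorem ctb (K : ℕ) : CtbStmt.{u} K := H6.ctb K (H83.nod K) PPZ.H21.zer PPZ.H47.cta

theorem var (K : ℕ) : VarStmt.{u} K :=
  H6.var K (H83.nod K) PPZ.H21.zer PPZ.H47.cta (H6.val K) (H65.der K) (H20.pri K)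

theorem xze (K : ℕ) : XzeStmt.{u} K :=
  H6.xze K (H20.pri K) (var K) (PPZ.H6.two PPZ.H6.upr) (PPZ.H52.zet PPZ.H6.upr)
    (PPZ.H85.pol PPZ.H58.poa PPZ.H32.fra)

theorem rmn (K : ℕ) : RmnStmt.{u} K := H6.rmn K (H83.nod K) (ctb K) (H6.val K) (H20.pri K) (xze K)

theorem tsx (K : ℕ) : TsxStmt.{u} K :=
  H6.tsx K (H83.nod K) PPZ.H47.cta (ctb K) (H6.val K) (H20.pri K) (rmn K)

theorem rta (K : ℕ) : RtaStmt.{u} K := H32.rta K (H83.nod K) (tsx K) PPZ.H20.pfd PPZ.H58.lre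

theorem con (K : ℕ) : ConStmt.{u} K :=
  H33.con K (H83.nod K) (H6.val K) (H20.pri K) (xze K) PPZ.H90.kum

theorem nof (K : ℕ) : NofStmt.{u} K :=
  H6.nof K (H83.nod K) (rta K) (H6.rtb K (H83.nod K) (H6.val K)) (H90.phi K (H83.nod K))
    (H58.rel K (H83.nod K) PPZ.H21.zer (H6.val K)) (H6.alt K) (con K)
    (H90.pen K (H83.nod K) PPZ.H9.hor)

/-- HXX: the height inequality outside a plane curve -/
theorem hxx (K : ℕ) : HxxStmt.{u} K := H32.hxx K (H6.fam K) (nof K)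

end Pool.Agent.PPE.H3
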